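import Pool.Agent.Helper626.Quartic.Prime

namespace Pool.Agent.Results.MP_e935e7_lc.DegreeFour

open MvPolynomial

/-- The set of values of the integer polynomial `f` at vectors of natural numbers
`ℕ = {0, 1, 2, …}`. -/
def values {n : ℕ} (f : MvPolynomial (Fin n) ℤ) : Set ℤ :=
  {m | ∃ x : Fin n → ℕ, eval (fun i => (x i : ℤ)) f = m}

/-- `f` is prime-representing: its positive values on `ℕ^n` are exactly the primes. -/
def PrimeRepresenting {n : ℕ} (f : MvPolynomial (Fin n) ℤ) : Prop :=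
  values f ∩ {m : ℤ | 0 < m} = {m : ℤ | ∃ p : ℕ, p.Prime ∧ m = p}

/-- The total degrees of the prime-representing polynomials (in any number of unknowns). -/
def degrees : Set ℕ :=
  {d | ∃ (n : ℕ) (f : MvPolynomial (Fin n) ℤ), PrimeRepresenting f ∧ f.totalDegree = d}

/-- `d_min`, the least total degree of a prime-representing polynomial. -/
noncomputable def dMin : ℕ := sInf degrees

theorem exists_quartic : ∃ (n : ℕ) (f : MvPolynomial (Fin n) ℤ),
    PrimeRepresenting f ∧ f.totalDegree ≤ 4 := by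
  obtain ⟨n, f, hf, h⟩ := Pool.Agent.Helper626.Quartic.quartic_of_re
    Pool.Agent.Helper626.Quartic.re_prime
  refine ⟨n, f, ?_, hf⟩
  ext m
  constructor
  · rintro ⟨⟨x, hx⟩, hm⟩
    obtain ⟨s, hs, _, rfl⟩ := (h m).1 ⟨hm, x, hx⟩
    exact ⟨s, hs, rfl⟩
  · rintro ⟨p, hp, rfl⟩
    obtain ⟨h1, x, hx⟩ := (h p).2 ⟨p, hp, hp.pos, rfl⟩
    exact ⟨⟨x, hx⟩, h1⟩

theorem no_quadratic {n : ℕ} (f : MvPolynomial (Fin n) ℤ) (hf : PrimeRepresenting f) :
    3 ≤ f.totalDegree := by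
  by_contra hc
  refine Pool.Agent.Helper626.Quartic.Lower.no_quadratic f (by omega) (fun x hx => ?_)
    (fun p hp => ?_)
  · have h1 : eval (fun i => (x i : ℤ)) f ∈ values f ∩ {m : ℤ | 0 < m} := ⟨⟨x, rfl⟩, hx⟩
    rw [hf] at h1
    exact h1
  · have h1 : (p : ℤ) ∈ {m : ℤ | ∃ p : ℕ, p.Prime ∧ m = p} := ⟨p, hp, rfl⟩
    rw [← hf] at h1
    exact h1.1

/-- **Main result.** There is a prime-representing polynomial of total degree at most `4`; so
`d_min = 5` is false.  Moreover no prime-representing polynomial has total degree less than `3`,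
so `d_min` is `3` or `4`. -/
theorem result :
    (∃ (n : ℕ) (f : MvPolynomial (Fin n) ℤ), PrimeRepresenting f ∧ f.totalDegree ≤ 4) ∧
    dMin ≠ 5 ∧ 3 ≤ dMin ∧ dMin ≤ 4 := by
  obtain ⟨n, f, hf, hd⟩ := exists_quartic
  have hne : degrees.Nonempty := ⟨_, n, f, hf, rfl⟩
  have h3 : 3 ≤ dMin := by
    obtain ⟨n', f', hf', hd'⟩ := Nat.sInf_mem hne
    have := no_quadratic f' hf'
    unfold dMin
    omega
  have h4 : dMin ≤ 4 := (Nat.sInf_le (⟨n, f, hf, rfl⟩ : f.totalDegree ∈ degrees)).trans hd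
  exact ⟨⟨n, f, hf, hd⟩, by omega, h3, h4⟩

end Pool.Agent.Results.MP_e935e7_lc.DegreeFour
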